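import Pool.Agent.Lib.H24S.R

/-!
# Spanning trees of congestion `O(√(mn))` in deterministic polynomial time

`adjBits G` is the adjacency matrix of `G` as a string of `n ^ 2` bits, `cng G T u v` the
congestion of the edge `uv` of the tree `T` (file `Pool/Agent/Lib/H24S/Stm.lean`).
-/

set_option autoImplicit false

namespace Pool.Agent.Results.MP_00a0c1_lc.PolyTimeCongestion

open Pool.Agent.H24S

/-- There is a function on strings of bits, computed by a (deterministic) Turing machine in
polynomial time, that maps the adjacency matrix of every connected graph `G` with `n` vertices and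
`m` edges to the adjacency matrix of a spanning tree of `G` whose congestion is at most
`735 √(mn)`. -/
theorem result : ∃ f : List Bool → List Bool,
    Nonempty (Turing.TM2ComputableInPolyTime (fun l : List Bool => l) (fun l : List Bool => l) f) ∧
    ∀ (n : ℕ) (G : SimpleGraph (Fin n)), G.Connected →
      ∃ T : SimpleGraph (Fin n), T ≤ G ∧ T.IsTree ∧ f (adjBits G) = adjBits T ∧
        ∀ u v, T.Adj u v → (cng G T u v : ℝ) ≤ 735 * Real.sqrt (G.edgeSet.ncard * n) :=
  main_theorem

end Pool.Agent.Results.MP_00a0c1_lc.PolyTimeCongestion
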